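import Pool.Agent.Q100.CT.Stm

set_option autoImplicit false

open Set Filter Topology

namespace Pool.Agent.Q153.CT

open Pool.Agent.Q100.CT

section
variable {V Z V' Z' : Type} [NormedAddCommGroup V] [InnerProductSpace ℝ V]
  [NormedAddCommGroup Z] [NormedSpace ℝ Z] [NormedAddCommGroup V'] [InnerProductSpace ℝ V']
  [NormedAddCommGroup Z'] [NormedSpace ℝ Z']

theorem tendsto_rho (B' : Form V' Z') {ι : Type} {l : Filter ι} {f g : ι → V' × Z'}
    {a b : V' × Z'} (hf : Tendsto f l (𝓝 a)) (hg : Tendsto g l (𝓝 b)) :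
    Tendsto (fun n => rho B' (f n) (g n)) l (𝓝 (rho B' a b)) :=
  ((cont_rho B').tendsto (a, b)).comp (hf.prodMk_nhds hg)

/-- pointwise limits of maps with almost the right constants -/
theorem cls_lim (B : Form V Z) (B' : Form V' Z') (K C : ℝ) (F : ℕ → V × Z → V' × Z')
    (G : V × Z → V' × Z') (h0 : ∀ n, F n 0 = 0)
    (h1 : ∀ (n : ℕ) x y, K⁻¹ * rho B x y - C / ((n : ℝ) + 1) ≤ rho B' (F n x) (F n y))
    (h2 : ∀ (n : ℕ) x y, rho B' (F n x) (F n y) ≤ K * rho B x y + C / ((n : ℝ) + 1))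
    (hG : ∀ x, Tendsto (fun n => F n x) (hyperfilter ℕ : Filter ℕ) (𝓝 (G x))) :
    G ∈ Cls B B' K := by
  have hC : Tendsto (fun n : ℕ => C / ((n : ℝ) + 1)) (hyperfilter ℕ : Filter ℕ) (𝓝 0) :=
    (tendsto_const_div_atTop_nhds_zero_nat C |>.comp (tendsto_add_atTop_nat 1) |>.mono_left
      Nat.hyperfilter_le_atTop).congr (fun n => by simp)
  refine ⟨?_, fun x y => ⟨?_, ?_⟩⟩
  · have h := hG 0
    simp only [h0] at h
    exact (tendsto_nhds_unique h tendsto_const_nhds)
  · have a : Tendsto (fun n : ℕ => K⁻¹ * rho B x y - C / ((n : ℝ) + 1))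
        (hyperfilter ℕ : Filter ℕ) (𝓝 (K⁻¹ * rho B x y - 0)) := tendsto_const_nhds.sub hC
    rw [sub_zero] at a
    exact le_of_tendsto_of_tendsto' a (tendsto_rho B' (hG x) (hG y)) (fun n => h1 n x y)
  · have a : Tendsto (fun n : ℕ => K * rho B x y + C / ((n : ℝ) + 1))
        (hyperfilter ℕ : Filter ℕ) (𝓝 (K * rho B x y + 0)) := tendsto_const_nhds.add hC
    rw [add_zero] at a
    exact le_of_tendsto_of_tendsto' (tendsto_rho B' (hG x) (hG y)) a (fun n => h2 n x y)

end

theorem cls : S_cls := by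
  intro V Z V' Z' _ _ _ _ _ _ _ _ _ _ B B' Φ K C hK hΦ
  have : ProperSpace V' := FiniteDimensional.proper ℝ V'
  have : ProperSpace Z' := FiniteDimensional.proper ℝ Z'
  refine ⟨?_, ?_, ?_, ?_, ?_⟩
  · -- nonempty
    set P : ℕ → V × Z → V' × Z' := fun n x =>
      dil ((n : ℝ) + 1)⁻¹ (mul B' (-(Φ 0)) (Φ (dil ((n : ℝ) + 1) x))) with hP
    have hr : ∀ n x y, rho B' (P n x) (P n y) =
        ((n : ℝ) + 1)⁻¹ * rho B' (Φ (dil ((n : ℝ) + 1) x)) (Φ (dil ((n : ℝ) + 1) y)) := by
      intro n x y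
      simp only [hP]
      rw [rho_dil, rho_left, abs_of_pos (by positivity)]
    have hd : ∀ (n : ℕ) x y, rho B (dil ((n : ℝ) + 1) x) (dil ((n : ℝ) + 1) y) =
        ((n : ℝ) + 1) * rho B x y := by
      intro n x y
      rw [rho_dil, abs_of_pos (by positivity)]
    have h0 : ∀ n, P n 0 = 0 := by
      intro n
      simp [hP]
    have h1 : ∀ (n : ℕ) x y, K⁻¹ * rho B x y - C / ((n : ℝ) + 1) ≤ rho B' (P n x) (P n y) := by
      intro n x y
      have hn : (0 : ℝ) < (n : ℝ) + 1 := by positivity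
      rw [hr]
      have := (hΦ (dil ((n : ℝ) + 1) x) (dil ((n : ℝ) + 1) y)).1
      rw [hd] at this
      calc K⁻¹ * rho B x y - C / ((n : ℝ) + 1)
          = ((n : ℝ) + 1)⁻¹ * (K⁻¹ * (((n : ℝ) + 1) * rho B x y) - C) := by
            field_simp
        _ ≤ _ := by gcongr
    have h2 : ∀ (n : ℕ) x y, rho B' (P n x) (P n y) ≤ K * rho B x y + C / ((n : ℝ) + 1) := by
      intro n x y
      have hn : (0 : ℝ) < (n : ℝ) + 1 := by positivity
      rw [hr]
      have := (hΦ (dil ((n : ℝ) + 1) x) (dil ((n : ℝ) + 1) y)).2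
      rw [hd] at this
      calc _ ≤ ((n : ℝ) + 1)⁻¹ * (K * (((n : ℝ) + 1) * rho B x y) + C) := by gcongr
        _ = _ := by field_simp
    have hC : 0 ≤ C := by
      have := (hΦ 0 0).2
      simpa using this
    have hc : ∀ x, ∃ y, Tendsto (fun n => P n x) (hyperfilter ℕ : Filter ℕ) (𝓝 y) := by
      intro x
      set R : ℝ := K * nrm x + C with hR
      have hR0 : 0 ≤ R := by have := nrm_nonneg x; positivity
      have hb : ∀ n, nrm (P n x) ≤ R := by
        intro n
        have := h2 n 0 x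
        rw [h0, rho_zero, rho_zero] at this
        refine this.trans ?_
        have : C / ((n : ℝ) + 1) ≤ C := div_le_self hC (by
          have : (0 : ℝ) ≤ n := Nat.cast_nonneg n
          linarith)
        linarith
      have hcomp : IsCompact ((Metric.closedBall (0 : V') R) ×ˢ (Metric.closedBall (0 : Z') (R ^ 2))) :=
        (isCompact_closedBall _ _).prod (isCompact_closedBall _ _)
      have hin : ∀ n, P n x ∈ ((Metric.closedBall (0 : V') R) ×ˢ (Metric.closedBall (0 : Z') (R ^ 2))) := by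
        intro n
        have := (nrm_le_iff hR0).mp (hb n)
        simpa [Set.mem_prod, mem_closedBall_zero_iff] using this
      obtain ⟨y, -, hy⟩ := hcomp.ultrafilter_le_nhds ((hyperfilter ℕ).map (fun n => P n x)) (by
        rw [Ultrafilter.coe_map, le_principal_iff, mem_map]
        exact Filter.univ_mem' hin)
      exact ⟨y, by rwa [Ultrafilter.coe_map] at hy⟩
    choose G hG using hc
    exact ⟨G, cls_lim B B' K C P G h0 h1 h2 hG⟩
  · -- translations
    intro F hF g
    refine ⟨by simp, fun x y => ?_⟩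
    have := hF.2 (mul B g x) (mul B g y)
    rw [rho_left] at this
    simp only [rho_left]
    exact this
  · -- dilations
    intro F hF r hr
    refine ⟨by simp [hF.1], fun x y => ?_⟩
    have := hF.2 (dil r x) (dil r y)
    rw [rho_dil, abs_of_pos hr] at this
    simp only [rho_dil]
    rw [abs_of_pos (inv_pos.mpr hr)]
    constructor
    · calc K⁻¹ * rho B x y = r⁻¹ * (K⁻¹ * (r * rho B x y)) := by field_simp
        _ ≤ _ := by
          have := this.1
          have h' : 0 ≤ r⁻¹ := (inv_pos.mpr hr).le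
          exact mul_le_mul_of_nonneg_left this h'
    · calc _ ≤ r⁻¹ * (K * (r * rho B x y)) := mul_le_mul_of_nonneg_left this.2 (inv_pos.mpr hr).le
        _ = _ := by field_simp
  · -- limits
    intro F G hF hG
    refine cls_lim B B' K 0 F G (fun n => (hF n).1) (fun n x y => ?_) (fun n x y => ?_) hG
    · simpa using ((hF n).2 x y).1
    · simpa using ((hF n).2 x y).2
  · refine ⟨K, hK.le, fun F hF x => ?_⟩
    have := (hF.2 0 x).2
    rwa [hF.1, rho_zero, rho_zero] at this

end Pool.Agent.Q153.CT
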