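import Pool.Agent.Q100.CT.Stm

set_option autoImplicit false

open Set Filter Topology

namespace Pool.Agent.Q153.CT

open Pool.Agent.Q100.CT

/-- a curve with quadratically small increments is constant -/
theorem const_of_sq {Z : Type} [NormedAddCommGroup Z] [NormedSpace ℝ Z] (φ : ℝ → Z) (c : ℝ)
    (h : ∀ s t, ‖φ t - φ s‖ ≤ c * (t - s) ^ 2) (s t : ℝ) : φ s = φ t := by
  have h1 : ∀ s, HasFDerivAt φ (0 : ℝ →L[ℝ] Z) s := by
    intro s
    have h2 : (fun t => φ t - φ s) =O[𝓝 s] fun t => ‖t - s‖ ^ 2 := by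
      apply Asymptotics.IsBigO.of_bound c
      filter_upwards with t
      have := h s t
      rw [norm_pow, norm_norm, Real.norm_eq_abs, sq_abs]
      exact this
    have h3 := (h2.hasFDerivAt (𝕜 := ℝ) (by norm_num)).add_const (φ s)
    simpa using h3
  exact is_const_of_fderiv_eq_zero (𝕜 := ℝ) (fun s => (h1 s).differentiableAt)
    (fun s => (h1 s).fderiv) s t

section
variable {V Z V' Z' : Type} [NormedAddCommGroup V] [InnerProductSpace ℝ V]
  [NormedAddCommGroup Z] [NormedSpace ℝ Z] [NormedAddCommGroup V'] [InnerProductSpace ℝ V']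
  [NormedAddCommGroup Z'] [NormedSpace ℝ Z']

omit [InnerProductSpace ℝ V] [NormedSpace ℝ Z] in
theorem nrm_hor (v : V) : nrm ((v, 0) : V × Z) = ‖v‖ := by
  simp [nrm]

omit [InnerProductSpace ℝ V] [NormedSpace ℝ Z] in
theorem nrm_ver (z : Z) : nrm ((0, z) : V × Z) = √‖z‖ := by
  simp [nrm]

theorem rho_hor (B : Form V Z) (x : V × Z) (v : V) (s t : ℝ) :
    rho B (mul B x (s • v, 0)) (mul B x (t • v, 0)) = |t - s| * ‖v‖ := by
  rw [rho_left]
  have : mul B (-((s • v, 0) : V × Z)) (t • v, 0) = ((t - s) • v, 0) := by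
    apply Prod.ext
    · simp only [mul_fst, Prod.fst_neg]
      module
    · simp [B.alt]
  unfold rho
  rw [this, nrm_hor, norm_smul, Real.norm_eq_abs]

theorem hom_step (B : Form V Z) (B' : Form V' Z') (K : ℝ) (F : V × Z → V' × Z')
    (hF : F ∈ Cls B B' K) (A : V →ₗ[ℝ] V') (hA : ∀ x : V × Z, (F x).1 = A x.1)
    (x : V × Z) (v : V) : F (mul B x (v, 0)) = mul B' (F x) (A v, 0) := by
  set ψ : ℝ → Z' := fun t => (F (mul B x (t • v, 0))).2 with hψ
  have h1 : ∀ s t, ‖(ψ t - (t / 2) • B'.b (A x.1) (A v)) - (ψ s - (s / 2) • B'.b (A x.1) (A v))‖ ≤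
      (K * ‖v‖) ^ 2 * (t - s) ^ 2 := by
    intro s t
    have h2 := (hF.2 (mul B x (s • v, 0)) (mul B x (t • v, 0))).2
    rw [rho_hor] at h2
    have h3 := Pool.Agent.Q100.CT.norm_snd_le (mul B' (-(F (mul B x (s • v, 0)))) (F (mul B x (t • v, 0))))
    have h4 : (mul B' (-(F (mul B x (s • v, 0)))) (F (mul B x (t • v, 0)))).2 =
        (ψ t - (t / 2) • B'.b (A x.1) (A v)) - (ψ s - (s / 2) • B'.b (A x.1) (A v)) := by
      simp only [mul_snd, Prod.snd_neg, Prod.fst_neg, hA, mul_fst, map_add, map_smul, map_neg,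
        LinearMap.add_apply, LinearMap.neg_apply, LinearMap.smul_apply, B'.alt, hψ]
      rw [b_neg B' (A v) (A x.1)]
      module
    rw [h4] at h3
    refine h3.trans ?_
    have h5 : nrm (mul B' (-(F (mul B x (s • v, 0)))) (F (mul B x (t • v, 0)))) ≤
        K * (|t - s| * ‖v‖) := h2
    calc _ ≤ (K * (|t - s| * ‖v‖)) ^ 2 := pow_le_pow_left₀ (nrm_nonneg _) h5 2
      _ = _ := by rw [mul_pow, mul_pow, sq_abs]; ring
  have h2 := const_of_sq (fun t => ψ t - (t / 2) • B'.b (A x.1) (A v)) _ h1 0 1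
  simp only [hψ, zero_smul, zero_div, sub_zero, one_smul] at h2
  have h3 : mul B x ((0 : V), (0 : Z)) = x := mulz B x
  rw [h3] at h2
  apply Prod.ext
  · rw [hA, mul_fst, map_add, mul_fst, hA]
  · rw [mul_snd, h2, hA]
    simp

end

theorem hom : S_word → S_hom := by
  intro hword V Z V' Z' _ _ _ _ _ _ _ _ B B' K hK F hF A hA
  have hst := hom_step B B' K F hF A hA
  have h0 : F 0 = 0 := hF.1
  have hv : ∀ v : V, F (v, 0) = (A v, 0) := by
    intro v
    have := hst 0 v
    rwa [zmul, h0, zmul] at this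
  have hhom : ∀ y x, F (mul B x y) = mul B' (F x) (F y) := by
    intro y
    refine hword V Z B (fun y => ∀ x, F (mul B x y) = mul B' (F x) (F y)) ?_ ?_ y
    · intro x
      rw [mulz, h0, mulz]
    · intro v y hy x
      rw [← mulA, hy, hst, hy, hv, mulA]
  have hinj : ∀ x, F x = 0 → x = 0 := by
    intro x hx
    have h1 := (hF.2 0 x).1
    rw [hx, h0, rho_self] at h1
    have h2 : rho B 0 x ≤ 0 := by
      by_contra h
      push Not at h
      have : 0 < K⁻¹ * rho B 0 x := by positivity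
      linarith
    exact (eq_of_rho B (le_antisymm h2 (rho_nonneg _ _ _))).symm
  refine ⟨(injective_iff_map_eq_zero A).mpr fun v h => ?_, ?_⟩
  · have h1 := hinj (v, 0) (by rw [hv, h]; rfl)
    exact congrArg Prod.fst h1
  have hz : ∀ z : Z, F (0, z) = (0, (F (0, z)).2) := by
    intro z
    apply Prod.ext
    · rw [hA]; simp
    · rfl
  have hadd : ∀ z w : Z, (F (0, z + w)).2 = (F (0, z)).2 + (F (0, w)).2 := by
    intro z w
    have h1 : mul B ((0 : V), z) (0, w) = (0, z + w) := by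
      apply Prod.ext <;> simp
    have h2 := hhom (0, w) (0, z)
    rw [h1] at h2
    rw [h2, mul_snd, hz z]
    simp
  set D : Z →+ Z' := AddMonoidHom.mk' (fun z => (F (0, z)).2) hadd with hD
  have hbd : ∀ z, ‖D z‖ ≤ K ^ 2 * ‖z‖ := by
    intro z
    have h1 := Pool.Agent.Q100.CT.norm_snd_le (F (0, z))
    have h2 := (hF.2 0 (0, z)).2
    rw [h0, rho_zero, rho_zero, nrm_ver] at h2
    refine h1.trans ?_
    calc _ ≤ (K * √‖z‖) ^ 2 := pow_le_pow_left₀ (nrm_nonneg _) h2 2
      _ = _ := by rw [mul_pow, Real.sq_sqrt (norm_nonneg _)]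
  have hcont : Continuous D := AddMonoidHomClass.continuous_of_bound D (K ^ 2) hbd
  refine ⟨(D.toRealLinearMap hcont).toLinearMap, (injective_iff_map_eq_zero _).mpr fun z h => ?_,
    fun v w => ?_⟩
  · have h1 : (F (0, z)).2 = 0 := h
    have h2 := hinj (0, z) (by rw [hz, h1]; rfl)
    exact congrArg Prod.snd h2
  · have h1 : mul B (v, 0) (w, 0) = mul B (v + w, 0) (0, (1 / 2 : ℝ) • B.b v w) := by
      apply Prod.ext <;> simp
    have h2 := congrArg (fun x => (F x).2) h1
    simp only [hhom, hv, mul_snd] at h2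
    rw [hz ((1 / 2 : ℝ) • B.b v w)] at h2
    simp only [map_zero, smul_zero, add_zero, zero_add] at h2
    have h3 : (F (0, (1 / 2 : ℝ) • B.b v w)).2 =
        (D.toRealLinearMap hcont).toLinearMap ((1 / 2 : ℝ) • B.b v w) := rfl
    rw [h3, map_smul] at h2
    have h4 := congrArg (fun z => (2 : ℝ) • z) h2
    simp only [smul_smul] at h4
    norm_num at h4
    exact h4.symm

end Pool.Agent.Q153.CT
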