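import Pool.Agent.Q100.CT.Stm

set_option autoImplicit false

open Set Filter Topology

namespace Pool.Agent.Q153.CT

open Pool.Agent.Q100.CT

section
variable {V Z V' Z' : Type} [NormedAddCommGroup V] [InnerProductSpace ℝ V]
  [NormedAddCommGroup Z] [NormedSpace ℝ Z] [NormedAddCommGroup V'] [InnerProductSpace ℝ V']
  [NormedAddCommGroup Z'] [NormedSpace ℝ Z']

theorem isCls_zero {B : Form V Z} {B' : Form V' Z'} {C : Set (V × Z → V' × Z')}
    (hC : IsCls B B' C) {F : V × Z → V' × Z'} (hF : F ∈ C) : F 0 = 0 := by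
  obtain ⟨K, hK, h⟩ := hC.bd
  have := h F hF 0
  rw [nrm_zero, mul_zero] at this
  exact nrm_eq_zero (le_antisymm this (nrm_nonneg _))

/-- The subclass of the maps one of whose coordinates is a given linear functional. -/
theorem isCls_sub [FiniteDimensional ℝ V'] {B : Form V Z} {B' : Form V' Z'}
    {C : Set (V × Z → V' × Z')}
    (hC : IsCls B B' C) (l : V' →ₗ[ℝ] ℝ) (a : V)
    (hne : ∃ F ∈ C, ∀ x : V × Z, l (F x).1 = inner ℝ a x.1) :
    IsCls B B' {F | F ∈ C ∧ ∀ x : V × Z, l (F x).1 = inner ℝ a x.1} := by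
  refine ⟨?_, ?_, ?_, ?_, ?_⟩
  · obtain ⟨F, h1, h2⟩ := hne
    exact ⟨F, h1, h2⟩
  · rintro F ⟨h1, h2⟩ g
    refine ⟨hC.tr F h1 g, fun x => ?_⟩
    simp only [mul_fst, Prod.fst_neg, map_add, map_neg, h2, inner_add_right]
    ring
  · rintro F ⟨h1, h2⟩ r hr
    refine ⟨hC.di F h1 r hr, fun x => ?_⟩
    simp only [dil_fst, map_smul, h2, inner_smul_right, smul_eq_mul]
    field_simp
  · intro F G hF hG
    refine ⟨hC.li F G (fun n => (hF n).1) hG, fun x => ?_⟩
    have hl : Continuous l := LinearMap.continuous_of_finiteDimensional l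
    have h1 : Tendsto (fun n => l (F n x).1) (hyperfilter ℕ : Filter ℕ) (𝓝 (l (G x).1)) :=
      ((hl.comp continuous_fst).tendsto (G x)).comp (hG x)
    have h2 : (fun n => l (F n x).1) = fun _ => inner ℝ a x.1 := funext fun n => (hF n).2 x
    rw [h2] at h1
    exact (tendsto_nhds_unique h1 tendsto_const_nhds)
  · obtain ⟨K, hK, h⟩ := hC.bd
    exact ⟨K, hK, fun F hF x => h F hF.1 x⟩

end

theorem lin : S_word → S_line → S_ext0 → S_lin := by
  intro _ hline hext V Z V' Z' _ _ _ _ _ _ _ _ _ _ _ _ B B' C hC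
  have key : ∀ L : List (V' →ₗ[ℝ] ℝ), ∃ C' : Set (V × Z → V' × Z'), C' ⊆ C ∧ IsCls B B' C' ∧
      ∀ l ∈ L, ∃ a : V, ∀ F ∈ C', ∀ x : V × Z, l (F x).1 = inner ℝ a x.1 := by
    intro L
    induction L with
    | nil => exact ⟨C, subset_rfl, hC, by simp⟩
    | cons l L ih =>
      obtain ⟨C', h1, h2, h3⟩ := ih
      obtain ⟨F, hF, s, e, he, hs, hu⟩ := hext V Z V' Z' B B' C' h2 l
      have h0 : F 0 = 0 := isCls_zero h2 hF
      have hl := hline V Z B (fun x => l (F x).1) e s he (by simp [h0]) hu hs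
      have hcl := isCls_sub h2 l (s • e) ⟨F, hF, fun x => by
        rw [hl x, real_inner_smul_left]⟩
      refine ⟨_, ?_, hcl, ?_⟩
      · intro G hG
        exact h1 hG.1
      · intro l' hl'
        rcases List.mem_cons.mp hl' with rfl | h
        · exact ⟨s • e, fun G hG => hG.2⟩
        · obtain ⟨a, ha⟩ := h3 l' h
          exact ⟨a, fun G hG => ha G hG.1⟩
  obtain ⟨C', h1, h2, h3⟩ := key (List.ofFn fun i => (Module.finBasis ℝ V').coord i)
  obtain ⟨F, hF⟩ := h2.ne
  have h4 : ∀ i, ∃ a : V, ∀ x : V × Z, (Module.finBasis ℝ V').coord i (F x).1 = inner ℝ a x.1 := by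
    intro i
    obtain ⟨a, ha⟩ := h3 ((Module.finBasis ℝ V').coord i) (by
      rw [List.mem_ofFn]; exact ⟨i, rfl⟩)
    exact ⟨a, ha F hF⟩
  choose a ha using h4
  refine ⟨F, h1 hF, ∑ i, ((innerSL ℝ (a i)).toLinearMap).smulRight ((Module.finBasis ℝ V') i),
    fun x => ?_⟩
  rw [LinearMap.sum_apply]
  conv_lhs => rw [← (Module.finBasis ℝ V').sum_repr (F x).1]
  refine Finset.sum_congr rfl fun i _ => ?_
  rw [LinearMap.smulRight_apply]
  congr 1
  have := ha i x
  rw [Module.Basis.coord_apply] at this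
  rw [this]
  rfl

end Pool.Agent.Q153.CT
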